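import Pool.Agent.H560.SK.StmK
import Pool.Agent.H560.AR.Stm

/-!
# Tuples with given parities in one window (project SK of helper560, task WINS; adapted from the
files of helper120, helper599, helper97 and helper181)
-/

set_option autoImplicit false

namespace Pool.Agent.H92.SK

open Polynomial
open scoped Classical
open Pool.Agent.H985.Chow (mob)
open Pool.Agent.H985.Par (Sft)
open Pool.Agent.H694.Typ (Mn Irn PU mem_PU card_dvd_e)
open Pool.Agent.H560.SI (Smt)
open Pool.Agent.H560.AR (S_rtQ)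
open Pool.Agent.H996.Par (Om Om_card Om_deg Om_lt dvd_rem)
open Pool.Agent.H97.SI (Tn mem_Tn card_Tn card_class mob_cases mob_abs)
open Pool.Agent.H560.SK

theorem der {K : Type} [Field K] [CharP K 2] {s F : K[X]} (hFs : derivative F = s ^ 2)
    (t : K[X]) : derivative (F + t ^ 2) = s ^ 2 := by
  rw [derivative_add, hFs, derivative_pow]
  simp [CharTwo.two_eq_zero]

theorem rt (hr : S_rtQ) {K : Type} [Field K] [Fintype K] [CharP K 2] (F : K[X]) {P : K[X]}
    (hP : P.Monic) (hPi : Irreducible P) :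
    ∃ r : K[X], r.degree < P.degree ∧ ∀ t : K[X], P ∣ F + t ^ 2 ↔ P ∣ t - r := by
  obtain ⟨r, h1, h2⟩ := hr K 1 F P hP hPi (fun h => hPi.not_isUnit (isUnit_of_dvd_one h))
  refine ⟨r, h1, fun t => ?_⟩
  have := h2 t
  rwa [one_mul] at this

theorem deg_sq {K : Type} [Field K] {F t : K[X]} {L m : ℕ} (hL : 2 * L ≤ m + 1) (hF : F.Monic)
    (hFd : F.natDegree = m) (ht : t.degree < (L : WithBot ℕ)) : (t ^ 2).degree < F.degree := by
  by_cases ht0 : t = 0
  · rw [ht0, zero_pow (by norm_num), degree_zero, degree_eq_natDegree hF.ne_zero]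
    exact WithBot.bot_lt_coe _
  · rw [degree_eq_natDegree ht0] at ht
    have h1 : t.natDegree < L := by exact_mod_cast ht
    rw [degree_eq_natDegree hF.ne_zero, hFd, degree_eq_natDegree (pow_ne_zero 2 ht0),
      natDegree_pow]
    exact_mod_cast (by omega : 2 * t.natDegree < m)

/-- the part with square factors -/
theorem sqpart (hr : S_rtQ) {K : Type} [Field K] [Fintype K] [CharP K 2]
    {m L N z : ℕ} {s F : K[X]} (hL : 2 * L ≤ m + 1) (hzL : 16 * z ≤ L)
    (hs : s ≠ 0) (hsd : s.natDegree ≤ N) (hss : Smt (L / 8) s) (hF : F.Monic)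
    (hFd : F.natDegree = m) (hFs : derivative F = s ^ 2) :
    ((Tn K L).filter (fun t => Sft z (F + t ^ 2) ∧ mob (F + t ^ 2) = 0)).card ≤
      N * Fintype.card K ^ (L - z) := by
  have hq : 2 ≤ Fintype.card K := Fintype.one_lt_card
  have hsub : (Tn K L).filter (fun t => Sft z (F + t ^ 2) ∧ mob (F + t ^ 2) = 0) ⊆
      ((PU K L).filter (fun P => P ∣ s ∧ z < P.natDegree ∧ P.natDegree ≤ L / 8)).biUnion
        (fun P => (Tn K L).filter (fun t => P ∣ F + t ^ 2)) := by
    intro t ht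
    rw [Finset.mem_filter] at ht
    obtain ⟨h1, h2, h3⟩ := ht
    have h4 : ¬ Squarefree (F + t ^ 2) := by
      rcases mob_cases (F + t ^ 2) with h | h | ⟨-, h⟩
      · rw [h3] at h; norm_num at h
      · rw [h3] at h; norm_num at h
      · exact h
    have hne : F + t ^ 2 ≠ 0 :=
      (hF.add_of_left (deg_sq hL hF hFd (mem_Tn.1 h1))).ne_zero
    rw [squarefree_iff_irreducible_sq_not_dvd_of_ne_zero hne] at h4
    push Not at h4
    obtain ⟨R, hR, hR2⟩ := h4
    have hlc : R.leadingCoeff ≠ 0 := mt leadingCoeff_eq_zero.1 hR.ne_zero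
    set P := R * C R.leadingCoeff⁻¹ with hP
    have hPm' : P.Monic := monic_mul_leadingCoeff_inv hR.ne_zero
    have hassoc : Associated R P := by
      have hu : IsUnit (C R.leadingCoeff⁻¹) :=
        isUnit_C.2 (isUnit_iff_ne_zero.2 (inv_ne_zero hlc))
      exact associated_mul_unit_right R _ hu
    have hPi : Irreducible P := hassoc.irreducible hR
    have hP2 : P * P ∣ F + t ^ 2 := by
      refine dvd_trans ?_ hR2
      exact (hassoc.symm.mul_mul hassoc.symm).dvd
    have hPs : P ∣ s := by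
      have e1 := der hFs t
      obtain ⟨c, hc⟩ := hP2
      rw [hc, derivative_mul, derivative_mul] at e1
      refine hPi.prime.dvd_of_dvd_pow (n := 2) ?_
      rw [← e1]
      refine dvd_add (Dvd.dvd.mul_right ?_ _) (Dvd.dvd.mul_right ?_ _)
      · exact dvd_add (dvd_mul_left _ _) (dvd_mul_right _ _)
      · exact dvd_mul_right _ _
    rw [Finset.mem_biUnion]
    refine ⟨P, ?_, ?_⟩
    · have h5 := hss P hPm' hPi hPs
      rw [Finset.mem_filter]
      refine ⟨mem_PU.2 ⟨hPm', hPi, by omega⟩, hPs, ?_, h5⟩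
      exact h2 P hPm' hPi ((dvd_mul_right P P).trans hP2)
    · rw [Finset.mem_filter]
      exact ⟨h1, (dvd_mul_right P P).trans hP2⟩
  have hc1 : ((Tn K L).filter (fun t => Sft z (F + t ^ 2) ∧ mob (F + t ^ 2) = 0)).card ≤
      ∑ P ∈ (PU K L).filter
        (fun P => P ∣ s ∧ z < P.natDegree ∧ P.natDegree ≤ L / 8), Fintype.card K ^ (L - z) := by
    refine (Finset.card_le_card hsub).trans (Finset.card_biUnion_le.trans
      (Finset.sum_le_sum fun P hP => ?_))
    rw [Finset.mem_filter] at hP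
    obtain ⟨h1, h2, h3, h4⟩ := hP
    have hP' := mem_PU.1 h1
    obtain ⟨r, hr1, hr2⟩ := rt hr F hP'.1 hP'.2.1
    simp only [hr2]
    refine (card_class hP'.1 (by omega) hr1).trans ?_
    exact Nat.pow_le_pow_right (by omega) (by omega)
  rw [Finset.sum_const, smul_eq_mul] at hc1
  have hc2 : ((PU K L).filter
      (fun P => P ∣ s ∧ z < P.natDegree ∧ P.natDegree ≤ L / 8)).card ≤ N := by
    refine le_trans (le_trans (Finset.card_le_card ?_) (card_dvd_e L hs)) hsd
    intro P hP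
    rw [Finset.mem_filter] at hP ⊢
    exact ⟨hP.1, hP.2.1⟩
  exact hc1.trans (Nat.mul_le_mul_right _ hc2)

/-- translation of the residue classes -/
theorem Om_shift_le {K : Type} [Field K] {k : ℕ} (τ : Fin k → K[X]) (r : K[X]) {P : K[X]}
    (hP : P.Monic) : (Om (fun i => τ i - r) P).card ≤ (Om τ P).card := by
  have h1 : Om (fun i => τ i - r) P = (Om τ P).image (fun a => (a + r) %ₘ P) := by
    unfold Om
    rw [Finset.image_image]
    refine Finset.image_congr fun i _ => ?_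
    show (-(τ i - r)) %ₘ P = ((-τ i) %ₘ P + r) %ₘ P
    have e : -(τ i - r) = -τ i + r := by ring
    rw [e, add_modByMonic, add_modByMonic,
      (modByMonic_eq_self_iff hP).2 (degree_modByMonic_lt (-τ i) hP)]
  rw [h1]
  exact Finset.card_image_le

theorem Om_shift {K : Type} [Field K] {k : ℕ} (τ : Fin k → K[X]) (r : K[X]) {P : K[X]}
    (hP : P.Monic) : (Om (fun i => τ i - r) P).card = (Om τ P).card := by
  refine le_antisymm (Om_shift_le τ r hP) ?_
  have h1 := Om_shift_le (fun i => τ i - r) (-r) hP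
  have h2 : (fun i => (fun i => τ i - r) i - -r) = τ := by
    funext i
    show τ i - r - -r = τ i
    ring
  rwa [h2] at h1

/-- the pointwise bound -/
theorem ptw {k : ℕ} (σ μ : Fin k → ℤ) (hσ : ∀ i, σ i = 1 ∨ σ i = -1)
    (hμ : ∀ i, μ i = 1 ∨ μ i = -1 ∨ μ i = 0) :
    ∏ i, (1 + (σ i : ℝ) * (μ i : ℝ)) ≤ 2 ^ k * ((if ∀ i, μ i = σ i then (1 : ℝ) else 0) +
      ∑ i, if μ i = 0 then (1 : ℝ) else 0) := by
  have hf : ∀ i, 0 ≤ 1 + (σ i : ℝ) * (μ i : ℝ) ∧ 1 + (σ i : ℝ) * (μ i : ℝ) ≤ 2 := by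
    intro i
    rcases hσ i with h | h <;> rcases hμ i with h' | h' | h' <;> rw [h, h'] <;> norm_num
  have hp : ∏ i, (1 + (σ i : ℝ) * (μ i : ℝ)) ≤ 2 ^ k := by
    have h1 := Finset.prod_le_prod (s := Finset.univ) (f := fun i => 1 + (σ i : ℝ) * (μ i : ℝ))
      (g := fun _ : Fin k => (2 : ℝ)) (fun i _ => (hf i).1) (fun i _ => (hf i).2)
    rwa [Finset.prod_const, Finset.card_univ, Fintype.card_fin] at h1
  have hs0 : 0 ≤ ∑ i, if μ i = 0 then (1 : ℝ) else 0 :=
    Finset.sum_nonneg fun i _ => by split_ifs <;> norm_num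
  have hk : (0 : ℝ) < 2 ^ k := by positivity
  by_cases h1 : ∀ i, μ i = σ i
  · rw [if_pos h1]
    nlinarith
  · rw [if_neg h1, zero_add]
    by_cases h2 : ∃ i, μ i = 0
    · obtain ⟨i, hi⟩ := h2
      have h3 : (1 : ℝ) ≤ ∑ i, if μ i = 0 then (1 : ℝ) else 0 := by
        have h4 := Finset.single_le_sum (f := fun i => if μ i = 0 then (1 : ℝ) else 0)
          (fun i _ => by split_ifs <;> norm_num) (Finset.mem_univ i)
        simp only [hi, if_true] at h4
        exact h4
      nlinarith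
    · have h3 : ∃ i, μ i = -σ i := by
        by_contra h4
        apply h1
        intro i
        have h5 : μ i ≠ 0 := fun h => h2 ⟨i, h⟩
        have h6 : μ i ≠ -σ i := fun h => h4 ⟨i, h⟩
        rcases hσ i with h | h <;> rcases hμ i with h' | h' | h' <;> omega
      obtain ⟨i, hi⟩ := h3
      have h4 : ∏ i, (1 + (σ i : ℝ) * (μ i : ℝ)) = 0 := by
        refine Finset.prod_eq_zero (Finset.mem_univ i) ?_
        rw [hi]
        rcases hσ i with h | h <;> rw [h] <;> norm_num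
      rw [h4]
      positivity

/-- **Task WINS.** -/
theorem winS (hr : S_rtQ) (hsw : Pool.Agent.H985.Par.S_sw) : S_winS := by
  intro K _ _ _ k
  obtain ⟨A, hA⟩ := hsw K k (1 / (8 * 2 ^ k)) (by positivity)
  refine ⟨A, ?_⟩
  intro m L N z τ s F B σ hL hz1 hz2 hzL hτ hadm hs hsd hss hF hFd hFs hB0 hB hV1 hV2 hσ
  have hq : 2 ≤ Fintype.card K := Fintype.one_lt_card
  -- the forms
  have hτ' : ∀ i, (τ i).degree < (L : WithBot ℕ) := fun i =>
    lt_of_le_of_lt degree_le_natDegree (by exact_mod_cast hτ i)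
  have hFm : ∀ t : K[X], t.degree < (L : WithBot ℕ) → (F + t ^ 2).Monic ∧
      (F + t ^ 2).natDegree = m := by
    intro t ht
    have h1 := deg_sq hL hF hFd ht
    exact ⟨hF.add_of_left h1, by rw [natDegree_add_eq_left_of_degree_lt h1, hFd]⟩
  -- the classes
  have hex : ∀ P : K[X], ∃ r : K[X], (P ∈ PU K z → ∀ t : K[X], P ∣ F + t ^ 2 ↔ P ∣ t - r) := by
    intro P
    by_cases hP : P ∈ PU K z
    · have hP' := mem_PU.1 hP
      obtain ⟨r, -, h2⟩ := rt hr F hP'.1 hP'.2.1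
      exact ⟨r, fun _ => h2⟩
    · exact ⟨0, fun h => absurd h hP⟩
  choose rP hrP using hex
  have hcl : ∀ P ∈ PU K z, ∀ (t : K[X]) (i : Fin k), P ∣ F + τ i ^ 2 + t ^ 2 ↔
      P ∣ t - (-(τ i - rP P)) %ₘ P := by
    intro P hP t i
    rw [dvd_rem]
    have e1 : F + τ i ^ 2 + t ^ 2 = F + (t + τ i) ^ 2 := by
      rw [CharTwo.add_sq]
      ring
    rw [e1, hrP P hP]
    have e2 : t + τ i - rP P = t + (τ i - rP P) := by ring
    rw [e2]
  have key := hA L z (PU K z) (fun P => Om (fun i => τ i - rP P) P) 1 0 hz1 hz2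
    (fun P hP => ⟨(mem_PU.1 hP).1, (mem_PU.1 hP).2.1, (mem_PU.1 hP).2.2, isCoprime_one_left⟩)
    (fun P hP => by
      have hP' := mem_PU.1 hP
      refine ⟨Om_card _ _, ?_, Om_deg _ hP'.1⟩
      show (Om (fun i => τ i - rP P) P).card < _
      rw [Om_shift τ (rP P) hP'.1]
      exact Om_lt τ hP'.1 (hadm P hP'.1 hP'.2.1))
  dsimp only at key
  have hV : ∏ P ∈ PU K z, (1 - ((Om (fun i => τ i - rP P) P).card : ℝ) /
      (Fintype.card K : ℝ) ^ P.natDegree) = VK τ z := by
    unfold VK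
    refine Finset.prod_congr rfl fun P hP => ?_
    rw [Om_shift τ (rP P) (mem_PU.1 hP).1]
  -- the sifted set
  obtain ⟨W, hW⟩ : ∃ W : Finset K[X], W = (Tn K L).filter
    (fun t => ∀ i, Sft z (F + τ i ^ 2 + t ^ 2)) := ⟨_, rfl⟩
  have hsif : {u : K[X] | u.degree < (L : WithBot ℕ) ∧
      ∀ P ∈ PU K z, ∀ r ∈ Om (fun i => τ i - rP P) P, ¬ P ∣ 0 + 1 * u - r} = (W : Set K[X]) := by
    ext t
    rw [hW, Finset.coe_filter]
    simp only [Set.mem_ofPred_eq, mem_Tn, zero_add, one_mul]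
    refine and_congr_right fun _ => ?_
    constructor
    · intro h i P hP1 hP2 hP3
      by_contra hlt
      have hP : P ∈ PU K z := mem_PU.2 ⟨hP1, hP2, not_lt.1 hlt⟩
      refine h P hP ((-(τ i - rP P)) %ₘ P) ?_ ((hcl P hP t i).1 hP3)
      exact Finset.mem_image.2 ⟨i, Finset.mem_univ _, rfl⟩
    · intro h P hP r hr' hd
      obtain ⟨i, -, hi⟩ := Finset.mem_image.1 hr'
      have hP' := mem_PU.1 hP
      rw [← hi] at hd
      have h1 := h i P hP'.1 hP'.2.1 ((hcl P hP t i).2 hd)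
      omega
  rw [hsif, Set.ncard_coe_finset, hV] at key
  obtain ⟨k1, -, k3⟩ := key
  obtain ⟨X, hX⟩ : ∃ X : ℝ, X = VK τ z * (Fintype.card K : ℝ) ^ L := ⟨_, rfl⟩
  obtain ⟨E, hE⟩ : ∃ E : ℝ, E = (2 : ℝ) ^ k := ⟨_, rfl⟩
  have hE0 : 0 < E := by rw [hE]; positivity
  have hE1 : 1 ≤ E := by rw [hE]; exact one_le_pow₀ (by norm_num)
  have eX : ∀ c : ℝ, c * VK τ z * (Fintype.card K : ℝ) ^ L = c * X := by
    intro c; rw [hX]; ring
  rw [eX, ← hE] at hV1 hV2 k1
  rw [eX, ← hE]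
  have hX0 : 0 ≤ X := by
    have h1 : 0 ≤ 2 * ((k + 1 : ℝ) * Fintype.card K) ^ (A * z) * B := by positivity
    have h2 := h1.trans hV1
    by_contra h3
    rw [not_le] at h3
    have h4 : 1 / (8 * E) * X < 0 := mul_neg_of_pos_of_neg (by positivity) h3
    linarith
  -- the sums
  have k4 : ∀ I : Finset (Fin k), I.Nonempty →
      |∑ t ∈ W, ∏ i ∈ I, (mob (F + τ i ^ 2 + t ^ 2) : ℝ)| ≤ 2 * (1 / (8 * E) * X) := by
    intro I hI
    have h1 := k3 (fun t => ∏ i ∈ I, (mob (F + τ i ^ 2 + t ^ 2) : ℝ)) B (fun t => by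
      show |∏ i ∈ I, (mob (F + τ i ^ 2 + t ^ 2) : ℝ)| ≤ 1
      rw [Finset.abs_prod]
      exact Finset.prod_le_one (fun _ _ => abs_nonneg _) fun i _ => mob_abs _) hB0 (by
      intro D r L' hD _ hDL hDA hrD
      have hrm : r.degree < (L : WithBot ℕ) := by
        refine lt_of_lt_of_le hrD ?_
        rw [degree_eq_natDegree hD.ne_zero]
        exact_mod_cast (by omega : D.natDegree ≤ L)
      have h2 := hB (F + r ^ 2) D L' I (hFm r hrm).1 (hFm r hrm).2 (der hFs r) hI hD hDA hDL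
      have e2 : ∀ (v : K[X]) (i : Fin k), F + τ i ^ 2 + (r + D * v) ^ 2 =
          F + r ^ 2 + τ i ^ 2 + (D * v) ^ 2 := by
        intro v i
        rw [CharTwo.add_sq]
        ring
      simp only [e2]
      exact h2)
    rw [finsum_mem_coe_finset] at h1
    rw [eX, ← hE] at h1
    linarith
  -- the lower bound for the sum of the products
  have low : 5 / 8 * X ≤ ∑ t ∈ W, ∏ i, (1 + (σ i : ℝ) * (mob (F + τ i ^ 2 + t ^ 2) : ℝ)) := by
    have h1 : ∑ t ∈ W, ∏ i, (1 + (σ i : ℝ) * (mob (F + τ i ^ 2 + t ^ 2) : ℝ)) =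
        ∑ I ∈ (Finset.univ : Finset (Fin k)).powerset, (∏ i ∈ I, (σ i : ℝ)) *
          ∑ t ∈ W, ∏ i ∈ I, (mob (F + τ i ^ 2 + t ^ 2) : ℝ) := by
      simp only [Finset.prod_one_add, Finset.prod_mul_distrib]
      rw [Finset.sum_comm]
      exact Finset.sum_congr rfl fun I _ => (Finset.mul_sum _ _ _).symm
    rw [h1, ← Finset.add_sum_erase _ _ (Finset.empty_mem_powerset _)]
    have h2 : (∏ i ∈ (∅ : Finset (Fin k)), (σ i : ℝ)) *
        ∑ t ∈ W, ∏ i ∈ (∅ : Finset (Fin k)), (mob (F + τ i ^ 2 + t ^ 2) : ℝ) = W.card := by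
      simp
    rw [h2]
    have h3 : |∑ I ∈ (Finset.univ : Finset (Fin k)).powerset.erase ∅, (∏ i ∈ I, (σ i : ℝ)) *
          ∑ t ∈ W, ∏ i ∈ I, (mob (F + τ i ^ 2 + t ^ 2) : ℝ)| ≤ 1 / 4 * X := by
      refine (Finset.abs_sum_le_sum_abs _ _).trans ?_
      have h4 : ∀ I ∈ (Finset.univ : Finset (Fin k)).powerset.erase ∅,
          |(∏ i ∈ I, (σ i : ℝ)) * ∑ t ∈ W, ∏ i ∈ I, (mob (F + τ i ^ 2 + t ^ 2) : ℝ)| ≤
            2 * (1 / (8 * E) * X) := by
        intro I hI
        have hI' : I.Nonempty := Finset.nonempty_iff_ne_empty.2 (Finset.ne_of_mem_erase hI)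
        rw [abs_mul, Finset.abs_prod]
        have h5 : ∏ i ∈ I, |(σ i : ℝ)| = 1 := Finset.prod_eq_one fun i _ => by
          rcases hσ i with h | h <;> rw [h] <;> norm_num
        rw [h5, one_mul]
        exact k4 I hI'
      refine (Finset.sum_le_sum h4).trans ?_
      rw [Finset.sum_const, nsmul_eq_mul]
      have h6 : (((Finset.univ : Finset (Fin k)).powerset.erase ∅).card : ℝ) ≤ E := by
        have h7 : ((Finset.univ : Finset (Fin k)).powerset.erase ∅).card ≤ 2 ^ k := by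
          refine (Finset.card_le_card (Finset.erase_subset _ _)).trans ?_
          rw [Finset.card_powerset, Finset.card_univ, Fintype.card_fin]
        rw [hE]
        exact_mod_cast h7
      calc (((Finset.univ : Finset (Fin k)).powerset.erase ∅).card : ℝ) *
            (2 * (1 / (8 * E) * X)) ≤ E * (2 * (1 / (8 * E) * X)) :=
            mul_le_mul_of_nonneg_right h6 (by positivity)
        _ = 1 / 4 * X := by field_simp; ring
    have h8 := (abs_le.1 h3).1
    have h9 : 1 / (8 * E) * X ≤ 1 / 8 * X := by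
      refine mul_le_mul_of_nonneg_right ?_ hX0
      exact one_div_le_one_div_of_le (by norm_num) (by linarith)
    have h10 : (1 - 1 / (8 * E)) * X = X - 1 / (8 * E) * X := by ring
    rw [h10] at k1
    linarith
  -- the upper bound
  have hsq : ∀ i, ((W.filter (fun t => mob (F + τ i ^ 2 + t ^ 2) = 0)).card : ℝ) ≤
      N * (Fintype.card K : ℝ) ^ (L - z) := by
    intro i
    have h1 := sqpart hr (z := z) hL hzL hs hsd hss (hFm (τ i) (hτ' i)).1 (hFm (τ i) (hτ' i)).2
      (der hFs (τ i))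
    have h2 : (W.filter (fun t => mob (F + τ i ^ 2 + t ^ 2) = 0)).card ≤
        N * Fintype.card K ^ (L - z) := by
      refine (Finset.card_le_card ?_).trans h1
      intro t ht
      rw [Finset.mem_filter, hW, Finset.mem_filter] at ht
      rw [Finset.mem_filter]
      exact ⟨ht.1.1, ht.1.2 i, ht.2⟩
    exact_mod_cast h2
  have hgood : (Tn K L).filter (fun t => ∀ i, mob (F + τ i ^ 2 + t ^ 2) = σ i ∧
      Sft z (F + τ i ^ 2 + t ^ 2)) =
      W.filter (fun t => ∀ i, mob (F + τ i ^ 2 + t ^ 2) = σ i) := by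
    rw [hW, Finset.filter_filter]
    refine Finset.filter_congr fun t _ => ?_
    exact ⟨fun h => ⟨fun i => (h i).2, fun i => (h i).1⟩, fun h i => ⟨h.2 i, h.1 i⟩⟩
  rw [hgood]
  have up : ∑ t ∈ W, ∏ i, (1 + (σ i : ℝ) * (mob (F + τ i ^ 2 + t ^ 2) : ℝ)) ≤
      E * ((W.filter (fun t => ∀ i, mob (F + τ i ^ 2 + t ^ 2) = σ i)).card +
        k * N * (Fintype.card K : ℝ) ^ (L - z)) := by
    have h1 : ∀ t ∈ W, ∏ i, (1 + (σ i : ℝ) * (mob (F + τ i ^ 2 + t ^ 2) : ℝ)) ≤
        E * ((if ∀ i, mob (F + τ i ^ 2 + t ^ 2) = σ i then (1 : ℝ) else 0) +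
          ∑ i, if mob (F + τ i ^ 2 + t ^ 2) = 0 then (1 : ℝ) else 0) := by
      intro t _
      rw [hE]
      refine ptw σ (fun i => mob (F + τ i ^ 2 + t ^ 2)) hσ fun i => ?_
      rcases mob_cases (F + τ i ^ 2 + t ^ 2) with h | h | ⟨h, -⟩
      · exact Or.inl h
      · exact Or.inr (Or.inl h)
      · exact Or.inr (Or.inr h)
    refine (Finset.sum_le_sum h1).trans ?_
    rw [← Finset.mul_sum]
    refine mul_le_mul_of_nonneg_left ?_ hE0.le
    rw [Finset.sum_add_distrib]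
    have h2 : ∑ t ∈ W, (if ∀ i, mob (F + τ i ^ 2 + t ^ 2) = σ i then (1 : ℝ) else 0) =
        (W.filter (fun t => ∀ i, mob (F + τ i ^ 2 + t ^ 2) = σ i)).card := by
      rw [Finset.sum_boole]
    have h3 : ∑ t ∈ W, ∑ i, (if mob (F + τ i ^ 2 + t ^ 2) = 0 then (1 : ℝ) else 0) ≤
        k * N * (Fintype.card K : ℝ) ^ (L - z) := by
      rw [Finset.sum_comm]
      have h4 : ∀ i ∈ (Finset.univ : Finset (Fin k)),
          ∑ t ∈ W, (if mob (F + τ i ^ 2 + t ^ 2) = 0 then (1 : ℝ) else 0) ≤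
            N * (Fintype.card K : ℝ) ^ (L - z) := by
        intro i _
        rw [Finset.sum_boole]
        exact hsq i
      refine (Finset.sum_le_sum h4).trans ?_
      rw [Finset.sum_const, Finset.card_univ, Fintype.card_fin, nsmul_eq_mul]
      apply le_of_eq
      ring
    rw [h2]
    exact add_le_add le_rfl h3
  have h1 := low.trans up
  have h2 : E * ((k : ℝ) * N * (Fintype.card K : ℝ) ^ (L - z)) ≤ 1 / 8 * X := by
    calc E * ((k : ℝ) * N * (Fintype.card K : ℝ) ^ (L - z)) ≤ E * (1 / (8 * E) * X) :=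
          mul_le_mul_of_nonneg_left hV2 hE0.le
      _ = 1 / 8 * X := by field_simp
  have h3 : 1 / 2 * X ≤
      E * ((W.filter (fun t => ∀ i, mob (F + τ i ^ 2 + t ^ 2) = σ i)).card : ℝ) := by
    rw [mul_add] at h1
    linarith
  have h4 : 1 / (4 * E) * X = (1 / 4 * X) / E := by field_simp
  rw [h4, div_le_iff₀ hE0]
  linarith

end Pool.Agent.H92.SK
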